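import Mathlib

namespace Pool.Agent.Results.MP_d886ff_an.Pauli

open MeasureTheory Filter Complex Set
open scoped Topology

/-- the Fourier transform `∫ e^{-ixy} f(y) dy` -/
noncomputable def FT (f : ℝ → ℂ) (x : ℝ) : ℂ := ∫ y : ℝ, exp (-I * x * y) * f y

noncomputable abbrev L2 := Lp ℂ 2 (volume : Measure ℝ)

def PauliPair (f g : L2) : Prop :=
  LinearIndependent ℂ ![f, g] ∧ (∀ᵐ x, ‖f x‖ = ‖g x‖) ∧ ∀ᵐ x, ‖FT f x‖ = ‖FT g x‖

def PauliSet (P : Set L2) : Prop :=
  P.Nontrivial ∧ ∀ f ∈ P, ∀ g ∈ P, f ≠ g → PauliPair f g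

def BoundedSupport (f : L2) : Prop := ∃ R : ℝ, ∀ᵐ x, R < |x| → f x = 0

noncomputable def a (x : ℝ) : ℝ := if 1 / 3 ≤ Int.fract x ∧ Int.fract x < 2 / 3 then 1 else 0

noncomputable def ph (τ : ℕ → ℝ) (x : ℝ) : ℝ := ∑' j, τ j * a (3 ^ j * x)

noncomputable def F (τ : ℕ → ℝ) (x : ℝ) : ℂ := if 0 ≤ x ∧ x < 1 then exp (I * ph τ x) else 0

lemma a_meas : Measurable a :=
  Measurable.ite ((measurableSet_le measurable_const measurable_fract).inter
    (measurableSet_lt measurable_fract measurable_const)) measurable_const measurable_const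

lemma abs_a (x : ℝ) : |a x| ≤ 1 := by unfold a; split_ifs <;> simp

lemma summ {τ : ℕ → ℝ} (h : Summable fun j => |τ j|) (x : ℝ) :
    Summable fun j => τ j * a (3 ^ j * x) :=
  Summable.of_norm_bounded h fun j => by
    rw [Real.norm_eq_abs, abs_mul]; exact mul_le_of_le_one_right (abs_nonneg _) (abs_a _)

lemma F_meas (τ : ℕ → ℝ) : Measurable (F τ) := by
  have : Measurable (ph τ) :=
    Measurable.tsum fun j => (a_meas.comp (measurable_const_mul _)).const_mul _
  exact Measurable.ite measurableSet_Ico (by fun_prop) measurable_const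

lemma norm_F (τ : ℕ → ℝ) (x : ℝ) : ‖F τ x‖ = if 0 ≤ x ∧ x < 1 then 1 else 0 := by
  unfold F; split_ifs <;> simp

lemma F_mem (τ : ℕ → ℝ) (p : ENNReal) : MemLp (F τ) p volume := by
  refine (memLp_indicator_const p (measurableSet_Ico (a := (0 : ℝ)) (b := 1)) (1 : ℝ)
    (Or.inr (by simp))).of_le (F_meas τ).aestronglyMeasurable (Eventually.of_forall fun x => ?_)
  rw [norm_F]; simp only [indicator, mem_Ico]; split_ifs <;> simp

lemma ph_step {τ : ℕ → ℝ} (h : Summable fun j => |τ j|) (x : ℝ) (d : ℤ) :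
    ph τ x = τ 0 * a x + ph (fun j => τ (j + 1)) (3 * x - d) := by
  unfold ph
  rw [(summ h x).tsum_eq_zero_add]
  simp only [pow_zero, one_mul]
  congr 2; ext j; congr 1
  unfold a
  have : (3 : ℝ) ^ j * (3 * x - d) = 3 ^ (j + 1) * x - ((3 ^ j * d : ℤ) : ℝ) := by push_cast; ring
  rw [this, Int.fract_sub_intCast]

lemma F_step {τ : ℕ → ℝ} (h : Summable fun j => |τ j|) (x : ℝ) :
    F τ x = F (fun j => τ (j + 1)) (3 * x - 0) +
      exp (I * τ 0) * F (fun j => τ (j + 1)) (3 * x - 1) + F (fun j => τ (j + 1)) (3 * x - 2) := by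
  unfold F
  by_cases h0 : 0 ≤ x ∧ x < 1
  · have fr : Int.fract x = x := Int.fract_eq_self.2 h0
    rw [if_pos h0]
    by_cases h1 : x < 1 / 3
    · rw [if_pos ⟨by linarith, by linarith⟩, if_neg (by rintro ⟨_, _⟩; linarith),
        if_neg (by rintro ⟨_, _⟩; linarith), ph_step h x 0]
      have : a x = 0 := by unfold a; rw [fr, if_neg (by rintro ⟨_, _⟩; linarith)]
      simp [this]
    by_cases h2 : x < 2 / 3
    · rw [if_neg (by rintro ⟨_, _⟩; linarith), if_pos ⟨by linarith, by linarith⟩,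
        if_neg (by rintro ⟨_, _⟩; linarith), ph_step h x 1]
      have : a x = 1 := by unfold a; rw [fr, if_pos ⟨by linarith, h2⟩]
      simp [this, mul_add, exp_add]
    · rw [if_neg (by rintro ⟨_, _⟩; linarith), if_neg (by rintro ⟨_, _⟩; linarith),
        if_pos ⟨by linarith, by linarith⟩, ph_step h x 2]
      have : a x = 0 := by unfold a; rw [fr, if_neg (by rintro ⟨_, _⟩; linarith)]
      simp [this]
  · rw [if_neg h0, if_neg (by rintro ⟨_, _⟩; exact h0 ⟨by linarith, by linarith⟩),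
      if_neg (by rintro ⟨_, _⟩; exact h0 ⟨by linarith, by linarith⟩),
      if_neg (by rintro ⟨_, _⟩; exact h0 ⟨by linarith, by linarith⟩)]
    simp

lemma FT_scale (g : ℝ → ℂ) (d x : ℝ) :
    ∫ y : ℝ, exp (-I * x * y) * g (3 * y - d) =
      1 / 3 * exp (-I * (x / 3 : ℝ) * d) * FT g (x / 3) := by
  have h1 := Measure.integral_comp_mul_left
    (fun z : ℝ => exp (-I * (x / 3 : ℝ) * z) * g (z - d)) 3
  have h2 := integral_add_right_eq_self (μ := (volume : Measure ℝ))
    (fun z : ℝ => exp (-I * (x / 3 : ℝ) * z) * g (z - d)) d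
  rw [← h2] at h1
  unfold FT
  rw [mul_assoc, ← integral_const_mul]
  convert h1 using 1
  · congr 1; ext y; congr 2; push_cast; ring
  · rw [real_smul]; congr 1
    · norm_num
    · congr 1; ext y; rw [add_sub_cancel_right, ← mul_assoc, ← exp_add]; congr 2; push_cast; ring

lemma int_mod (g : ℝ → ℂ) (hg : Integrable g) (d x : ℝ) :
    Integrable fun y : ℝ => exp (-I * x * y) * g (3 * y - d) := by
  refine ((hg.comp_sub_right d).comp_mul_left' (R := 3) (by norm_num)).bdd_mul (c := 1)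
    (by fun_prop) (Eventually.of_forall fun y => ?_)
  rw [show -I * x * y = ((-(x * y) : ℝ) : ℂ) * I by push_cast; ring, norm_exp_ofReal_mul_I]

lemma FT_step {τ : ℕ → ℝ} (h : Summable fun j => |τ j|) (x : ℝ) :
    ‖FT (F τ) x‖ = 1 / 3 * ‖((2 * Real.cos (x / 3) : ℝ) : ℂ) + exp (I * τ 0)‖ *
      ‖FT (F fun j => τ (j + 1)) (x / 3)‖ := by
  have hi : Integrable (F fun j => τ (j + 1)) := memLp_one_iff_integrable.1 (F_mem _ 1)
  have : FT (F τ) x = 1 / 3 * exp (-I * (x / 3 : ℝ)) *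
      (((2 * Real.cos (x / 3) : ℝ) : ℂ) + exp (I * τ 0)) * FT (F fun j => τ (j + 1)) (x / 3) := by
    conv_lhs => unfold FT
    simp only [F_step h, mul_add, mul_left_comm _ (exp (I * τ 0))]
    rw [integral_add (by exact (int_mod _ hi 0 x).add ((int_mod _ hi 1 x).const_mul _))
      (int_mod _ hi 2 x),
      integral_add (int_mod _ hi 0 x) ((int_mod _ hi 1 x).const_mul _), integral_const_mul,
      FT_scale, FT_scale, FT_scale]
    have e1 : ((2 * Real.cos (x / 3) : ℝ) : ℂ) = exp (I * (x / 3 : ℝ)) + exp (-I * (x / 3 : ℝ)) := by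
      rw [ofReal_mul, ofReal_cos, ofReal_ofNat, two_cos]; congr 2 <;> ring
    have e2 : exp (-I * (x / 3 : ℝ)) * exp (I * (x / 3 : ℝ)) = 1 := by rw [← exp_add]; simp
    have e3 : exp (-I * (x / 3 : ℝ) * (2 : ℝ)) = exp (-I * (x / 3 : ℝ)) * exp (-I * (x / 3 : ℝ)) := by
      rw [← exp_add]; congr 1; push_cast; ring
    rw [e1, e3]
    simp only [ofReal_zero, mul_zero, exp_zero, ofReal_one, mul_one]
    linear_combination (-(1 / 3) * FT (F fun j => τ (j + 1)) (x / 3)) * e2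
  rw [this, norm_mul, norm_mul, norm_mul,
    show -I * (x / 3 : ℝ) = ((-(x / 3) : ℝ) : ℂ) * I by push_cast; ring, norm_exp_ofReal_mul_I]
  simp

lemma mod_eq (k : ℕ) : ∀ τ σ : ℕ → ℝ, (Summable fun j => |τ j|) → (∀ j, |σ j| = |τ j|) →
    (∀ j, k ≤ j → σ j = τ j) → ∀ x, ‖FT (F σ) x‖ = ‖FT (F τ) x‖ := by
  induction k with
  | zero => intro τ σ _ _ h x; rw [show σ = τ from funext fun j => h j (Nat.zero_le _)]
  | succ k ih =>
    intro τ σ hs h1 h2 x
    rw [FT_step hs, FT_step (by simpa only [h1] using hs), ih _ _ ((summable_nat_add_iff 1).2 hs)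
      (fun j => h1 _) (fun j hj => h2 _ (by omega))]
    congr 2
    rcases abs_eq_abs.1 (h1 0) with e | e
    · rw [e]
    · rw [e, ← norm_conj, map_add, conj_ofReal, ← exp_conj]; simp

noncomputable def t (j : ℕ) : ℝ := (1 / 2) ^ j

/-- the phases with the sign at place `k` reversed -/
noncomputable def s (k j : ℕ) : ℝ := if j = k then -t j else t j

lemma t_pos (j : ℕ) : 0 < t j := by unfold t; positivity

lemma t_sum : Summable fun j => |t j| := by
  simp only [abs_of_pos (t_pos _)]; exact summable_geometric_two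

lemma abs_s (k j : ℕ) : |s k j| = |t j| := by unfold s; split_ifs <;> simp

noncomputable def G (τ : ℕ → ℝ) : L2 := (F_mem τ 2).toLp _

lemma G_ae (τ : ℕ → ℝ) : G τ =ᵐ[volume] F τ := (F_mem τ 2).coeFn_toLp

lemma ph_single {τ σ : ℕ → ℝ} (h1 : Summable fun j => |τ j|) (h2 : Summable fun j => |σ j|)
    (k : ℕ) (x : ℝ) (h : ∀ j, j ≠ k → σ j * a (3 ^ j * x) = τ j * a (3 ^ j * x)) :
    ph σ x = ph τ x + (σ k - τ k) * a (3 ^ k * x) := by
  unfold ph
  rw [← sub_eq_iff_eq_add', ← (summ h2 x).tsum_sub (summ h1 x), tsum_eq_single k]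
  · ring
  · intro j hj; rw [h j hj, sub_self]

lemma a_low {x : ℝ} (h0 : 0 ≤ x) (h1 : x < 1 / 3) : a x = 0 := by
  unfold a; rw [Int.fract_eq_self.2 ⟨h0, by linarith⟩, if_neg (by rintro ⟨_, _⟩; linarith)]

lemma indep (τ σ : ℕ → ℝ) (h1 : ∀ j, |τ j| = |t j|) (h2 : ∀ j, |σ j| = |t j|) (k : ℕ)
    (hk : σ k = -τ k) (h : ∀ j, k < j → σ j = τ j) : LinearIndependent ℂ ![G τ, G σ] := by
  have s1 : Summable fun j => |τ j| := by simpa only [h1] using t_sum
  have s2 : Summable fun j => |σ j| := by simpa only [h2] using t_sum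
  rw [LinearIndependent.pair_iff]
  intro u v huv
  have hae : ∀ᵐ x, u * F τ x + v * F σ x = 0 := by
    have := Lp.coeFn_add (u • G τ) (v • G σ)
    rw [huv] at this
    filter_upwards [this, Lp.coeFn_zero ℂ 2 (volume : Measure ℝ), Lp.coeFn_smul u (G τ),
      Lp.coeFn_smul v (G σ), G_ae τ, G_ae σ] with x a1 a2 a3 a4 a5 a6
    rw [a2, Pi.add_apply, a3, a4, Pi.smul_apply, Pi.smul_apply, a5, a6] at a1
    exact a1.symm
  have ex : ∀ p q : ℝ, p < q → ∃ x, p < x ∧ x < q ∧ u * F τ x + v * F σ x = 0 := by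
    intro p q hpq
    obtain ⟨x, hx, h⟩ := Measure.exists_mem_of_measure_ne_zero_of_ae (s := Ioo p q)
      (by simpa using hpq) (ae_restrict_of_ae hae)
    exact ⟨x, hx.1, hx.2, h⟩
  have p3 : (0 : ℝ) < 3 ^ k := by positivity
  have p4 : (1 : ℝ) ≤ 3 ^ k := one_le_pow₀ (by norm_num)
  have key : ∀ x, 0 < x → 3 ^ k * x < 2 / 3 → u * F τ x + v * F σ x = 0 →
      u + v * exp (I * ((-τ k - τ k) * a (3 ^ k * x) : ℝ)) = 0 := by
    intro x x0 x1 hx
    have := ph_single s1 s2 k x fun j hj => by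
      rcases lt_or_gt_of_ne hj with c | c
      · have : (3 : ℝ) ^ (j + 1) ≤ 3 ^ k := pow_le_pow_right₀ (by norm_num) c
        rw [a_low (by positivity) (by rw [pow_succ] at this; nlinarith)]; simp
      · rw [h j c]
    unfold F at hx
    rw [if_pos ⟨x0.le, by nlinarith⟩, if_pos ⟨x0.le, by nlinarith⟩, this, hk, ofReal_add, mul_add,
      exp_add] at hx
    apply mul_left_cancel₀ (exp_ne_zero (I * ph τ x))
    linear_combination hx
  obtain ⟨x, x0, x1, hx⟩ := ex 0 (1 / 3 / 3 ^ k) (by positivity)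
  rw [lt_div_iff₀ p3] at x1
  have e1 := key x x0 (by linarith) hx
  rw [a_low (by positivity) (by linarith)] at e1
  obtain ⟨y, y0, y1, hy⟩ := ex (1 / 3 / 3 ^ k) (2 / 3 / 3 ^ k) (by gcongr; norm_num)
  rw [lt_div_iff₀ p3] at y1
  rw [div_lt_iff₀ p3] at y0
  have e2 := key y (by nlinarith) (by linarith) hy
  have : a (3 ^ k * y) = 1 := by
    unfold a
    rw [Int.fract_eq_self.2 ⟨by linarith, by linarith⟩, if_pos ⟨by linarith, by linarith⟩]
  rw [this, mul_one] at e2
  simp only [mul_zero, ofReal_zero, exp_zero, mul_one] at e1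
  have ne : exp (I * ((-τ k - τ k : ℝ) : ℂ)) ≠ 1 := by
    intro he
    have b1 : |τ k| ≤ 1 := by
      rw [h1, abs_of_pos (t_pos k)]; exact pow_le_one₀ (by norm_num) (by norm_num)
    have b2 : τ k ≠ 0 := by
      intro h0; have := h1 k; rw [h0, abs_zero, abs_of_pos (t_pos k)] at this; exact (t_pos k).ne this
    have c := congrArg re he
    rw [mul_comm, exp_ofReal_mul_I_re, one_re] at c
    have := (Real.cos_eq_one_iff_of_lt_of_lt (by linarith [(abs_le.1 b1).2, Real.pi_gt_three])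
      (by linarith [(abs_le.1 b1).1, Real.pi_gt_three])).1 c
    exact b2 (by linarith)
  have v0 : v = 0 := by
    have : v * (exp (I * ((-τ k - τ k : ℝ) : ℂ)) - 1) = 0 := by linear_combination e2 - e1
    exact (mul_eq_zero.1 this).resolve_right (sub_ne_zero.2 ne)
  exact ⟨by simpa [v0] using e1, v0⟩

lemma pair (τ σ : ℕ → ℝ) (h1 : ∀ j, |τ j| = |t j|) (h2 : ∀ j, |σ j| = |t j|) (k : ℕ)
    (hk : σ k = -τ k) (h : ∀ j, k < j → σ j = τ j) : PauliPair (G τ) (G σ) ∧ PauliPair (G σ) (G τ) := by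
  have a1 : ∀ᵐ x, ‖G τ x‖ = ‖G σ x‖ := by
    filter_upwards [G_ae τ, G_ae σ] with x a b; rw [a, b, norm_F, norm_F]
  have e : ∀ τ, FT (G τ) = FT (F τ) := fun τ => funext fun x =>
    integral_congr_ae (by filter_upwards [G_ae τ] with y hy; rw [hy])
  have a2 : ∀ x, ‖FT (G σ) x‖ = ‖FT (G τ) x‖ := by
    rw [e, e]
    exact mod_eq (k + 1) τ σ (by simpa only [h1] using t_sum) (fun j => by rw [h1, h2]) h
  exact ⟨⟨indep τ σ h1 h2 k hk h, a1, Eventually.of_forall fun x => (a2 x).symm⟩,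
    ⟨indep σ τ h2 h1 k (by rw [hk, neg_neg]) fun j hj => (h j hj).symm,
      a1.mono fun x => Eq.symm, Eventually.of_forall a2⟩⟩

theorem result : ∃ P : Set L2, PauliSet P ∧ (∀ f ∈ P, BoundedSupport f) ∧
    ∃ f ∈ P, ∃ g : ℕ → L2, (∀ k, g k ∈ P ∧ g k ≠ f) ∧
      Tendsto (fun k => ‖g k - f‖) atTop (𝓝 0) := by
  have p1 : ∀ k, PauliPair (G t) (G (s k)) ∧ PauliPair (G (s k)) (G t) := fun k =>
    pair t (s k) (fun _ => rfl) (abs_s k) k (by simp [s]) fun j hj => by simp [s, hj.ne']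
  have p2 : ∀ k l, l < k → PauliPair (G (s l)) (G (s k)) ∧ PauliPair (G (s k)) (G (s l)) :=
    fun k l h => pair _ _ (abs_s l) (abs_s k) k (by simp [s, h.ne'])
      fun j hj => by simp [s, hj.ne', (h.trans hj).ne']
  have ne : ∀ k, G (s k) ≠ G t := fun k h => by
    have := (p1 k).1.1.injective.ne (show (0 : Fin 2) ≠ 1 by decide)
    simp [h] at this
  refine ⟨insert (G t) (range fun k => G (s k)), ⟨⟨_, Or.inr ⟨0, rfl⟩, _, Or.inl rfl, ne 0⟩, ?_⟩,
    ?_, G t, Or.inl rfl, fun k => G (s k), fun k => ⟨Or.inr ⟨k, rfl⟩, ne k⟩, ?_⟩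
  · rintro _ (rfl | ⟨k, rfl⟩) _ (rfl | ⟨l, rfl⟩) h
    · exact absurd rfl h
    · exact (p1 l).1
    · exact (p1 k).2
    · rcases lt_trichotomy k l with c | c | c
      · exact (p2 l k c).1
      · exact absurd (by rw [c]) h
      · exact (p2 k l c).2
  · have : ∀ τ, BoundedSupport (G τ) := fun τ => ⟨1, by
      filter_upwards [G_ae τ] with x hx h
      rw [hx, F, if_neg]
      rintro ⟨h0, h1⟩; rw [abs_of_nonneg h0] at h; linarith⟩
    rintro _ (rfl | ⟨k, rfl⟩) <;> exact this _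
  · have lim : Tendsto (fun k => 2 * t k * ‖G t‖) atTop (𝓝 0) := by
      simpa only [mul_zero, zero_mul] using! ((tendsto_pow_atTop_nhds_zero_of_lt_one (r := (1 / 2 : ℝ)) (by norm_num)
        (by norm_num)).const_mul 2).mul_const ‖G t‖
    refine squeeze_zero (fun _ => norm_nonneg _) (fun k => ?_) lim
    apply Lp.norm_le_mul_norm_of_ae_le_mul
    filter_upwards [Lp.coeFn_sub (G (s k)) (G t), G_ae (s k), G_ae t] with x a1 a2 a3
    rw [a1, Pi.sub_apply, a2, a3, norm_F]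
    unfold F
    split_ifs
    · rw [ph_single t_sum (by simpa only [abs_s] using t_sum) k x (fun j hj => by simp [s, hj]),
        ofReal_add, mul_add, exp_add, ← mul_sub_one, norm_mul, norm_exp_I_mul_ofReal, one_mul,
        mul_one]
      refine Real.norm_exp_I_mul_ofReal_sub_one_le.trans ?_
      rw [Real.norm_eq_abs, abs_mul]
      have : |s k k - t k| = 2 * t k := by
        simp only [s, if_true]; rw [abs_of_neg (by linarith [t_pos k])]; ring
      rw [this]
      exact mul_le_of_le_one_right (by linarith [t_pos k]) (abs_a _)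
    · simp

end Pool.Agent.Results.MP_d886ff_an.Pauli
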